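import Mathlib
import Pool.Agent.N732.GS.Block

set_option autoImplicit false
set_option linter.unusedSectionVars false

/-! # Counting integers avoiding given residue classes modulo the primes of a finite set -/

open Filter Set
open scoped Topology

namespace Pool.Agent.N732.GX

open Pool.Agent.R528.RM

/-- `n` avoids the residues `R p` modulo `p` for all `p ∈ U` -/
def av (U : Finset ℕ) (R : ℕ → Finset ℕ) (n : ℕ) : Prop := ∀ p ∈ U, n % p ∉ R p

instance (U : Finset ℕ) (R : ℕ → Finset ℕ) : DecidablePred (av U R) := fun n => by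
  unfold av
  infer_instance

lemma av_periodic (U : Finset ℕ) (R : ℕ → Finset ℕ) {W : ℕ} (hW : ∀ p ∈ U, p ∣ W) : Function.Periodic (av U R) W := by
  intro n
  unfold av
  apply propext
  refine forall₂_congr fun p hp => ?_
  obtain ⟨k, hk⟩ := hW p hp
  rw [hk, Nat.add_mul_mod_self_left]

lemma av_count (U : Finset ℕ) (hU : ∀ p ∈ U, p.Prime) (R : ℕ → Finset ℕ) (hR : ∀ p ∈ U, R p ⊆ Finset.range p) :
    Nat.count (av U R) (∏ p ∈ U, p) = ∏ p ∈ U, (p - (R p).card) := by
  classical
  induction U using Finset.induction_on with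
  | empty =>
    rw [Finset.prod_empty, Finset.prod_empty, Nat.count_eq_card_filter_range, Finset.filter_true_of_mem]
    · simp
    · intro x _ p hp
      simp at hp
  | insert q U hq ih =>
    have hqp : q.Prime := hU q (Finset.mem_insert_self q U)
    have hU' : ∀ p ∈ U, p.Prime := fun p hp => hU p (Finset.mem_insert_of_mem hp)
    have hcop : Nat.Coprime q (∏ p ∈ U, p) := by
      refine Nat.Coprime.prod_right fun p hp => ?_
      refine (Nat.coprime_primes hqp (hU' p hp)).2 ?_
      rintro rfl
      exact hq hp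
    have hpos : 0 < ∏ p ∈ U, p := Finset.prod_pos fun p hp => (hU' p hp).pos
    rw [Finset.prod_insert hq, Finset.prod_insert hq, ← ih hU' fun p hp => hR p (Finset.mem_insert_of_mem hp)]
    set b := ∏ p ∈ U, p with hb
    have hRq : R q ⊆ Finset.range q := hR q (Finset.mem_insert_self q U)
    have hcq : ((Finset.range q).filter (fun n => n ∉ R q)).card = q - (R q).card := by
      rw [Finset.filter_not, Finset.card_sdiff_of_subset (Finset.filter_subset _ _), Finset.card_range]
      congr 1
      congr 1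
      ext n
      rw [Finset.mem_filter]
      exact ⟨fun h => h.2, fun h => ⟨hRq h, h⟩⟩
    have hper : Function.Periodic (av U R) b := av_periodic U R fun p hp => Finset.dvd_prod_of_mem _ hp
    simp only [Nat.count_eq_card_filter_range]
    rw [← hcq, ← Finset.card_product]
    refine Finset.card_nbij (fun n => (n % q, n % b)) ?_ ?_ ?_
    · intro n hn
      simp only [Finset.coe_filter, Finset.mem_range, Set.mem_ofPred_eq] at hn
      obtain ⟨_, h2⟩ := hn
      refine Finset.mem_coe.2 (Finset.mem_product.2 ⟨Finset.mem_filter.2 ⟨Finset.mem_range.2 (Nat.mod_lt _ hqp.pos), ?_⟩,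
        Finset.mem_filter.2 ⟨Finset.mem_range.2 (Nat.mod_lt _ hpos), ?_⟩⟩)
      · exact h2 q (Finset.mem_insert_self q U)
      · simp only
        rw [hper.map_mod_nat n]
        exact fun p hp => h2 p (Finset.mem_insert_of_mem hp)
    · intro n hn m hm h
      simp only [Finset.coe_filter, Finset.mem_range, Set.mem_ofPred_eq] at hn hm
      simp only [Prod.mk.injEq] at h
      have h3 : n ≡ m [MOD q * b] := (Nat.modEq_and_modEq_iff_modEq_mul hcop).1 ⟨h.1, h.2⟩
      have h4 : n % (q * b) = m % (q * b) := h3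
      rwa [Nat.mod_eq_of_lt hn.1, Nat.mod_eq_of_lt hm.1] at h4
    · rintro ⟨u, v⟩ huv
      simp only [Finset.coe_product, Finset.coe_filter, Finset.mem_range, Set.mem_prod, Set.mem_ofPred_eq] at huv
      obtain ⟨⟨h1, h2⟩, ⟨h3, h4⟩⟩ := huv
      obtain ⟨n, hn1, hn2⟩ := Nat.chineseRemainder hcop u v
      refine ⟨n % (q * b), ?_, ?_⟩
      · simp only [Finset.coe_filter, Finset.mem_range, Set.mem_ofPred_eq]
        refine ⟨Nat.mod_lt _ (Nat.mul_pos hqp.pos hpos), ?_⟩
        have hper2 : Function.Periodic (av (insert q U) R) (q * b) := av_periodic _ R fun p hp => by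
          rcases Finset.mem_insert.1 hp with h | h
          · rw [h]; exact dvd_mul_right q b
          · exact (Finset.dvd_prod_of_mem _ h).mul_left q
        rw [hper2.map_mod_nat n]
        intro p hp
        rcases Finset.mem_insert.1 hp with h | h
        · rw [h, show n % q = u % q from hn1, Nat.mod_eq_of_lt h1]; exact h2
        · have h5 : av U R n := by
            rw [← hper.map_mod_nat n, show n % b = v % b from hn2, Nat.mod_eq_of_lt h3]; exact h4
          exact h5 p h
      · simp only [Prod.mk.injEq]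
        constructor
        · rw [Nat.mod_mod_of_dvd _ (Dvd.intro _ rfl), show n % q = u % q from hn1, Nat.mod_eq_of_lt h1]
        · rw [Nat.mod_mod_of_dvd _ (Dvd.intro_left _ rfl), show n % b = v % b from hn2, Nat.mod_eq_of_lt h3]

lemma av_dens (U : Finset ℕ) (hU : ∀ p ∈ U, p.Prime) (R : ℕ → Finset ℕ) (hR : ∀ p ∈ U, R p ⊆ Finset.range p) :
    (Nat.count (av U R) (∏ p ∈ U, p) : ℝ) / ((∏ p ∈ U, p : ℕ) : ℝ) = ∏ p ∈ U, (1 - ((R p).card : ℝ) / p) := by
  rw [av_count U hU R hR]
  push_cast
  rw [← Finset.prod_div_distrib]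
  refine Finset.prod_congr rfl fun p hp => ?_
  have h1 := Finset.card_le_card (hR p hp)
  rw [Finset.card_range] at h1
  have hp0 : (p : ℝ) ≠ 0 := by exact_mod_cast (hU p hp).ne_zero
  rw [Nat.cast_sub h1]
  field_simp

/-- the number of `n ∈ [a, b)` avoiding the residues -/
lemma av_Ico (U : Finset ℕ) (hU : ∀ p ∈ U, p.Prime) (R : ℕ → Finset ℕ) (hR : ∀ p ∈ U, R p ⊆ Finset.range p) {a b : ℕ} (hab : a ≤ b) :
    |∑ n ∈ Finset.Ico a b, (if av U R n then (1 : ℝ) else 0) - ((b : ℝ) - a) * ∏ p ∈ U, (1 - ((R p).card : ℝ) / p)| ≤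
      2 * ((∏ p ∈ U, p : ℕ) : ℝ) := by
  classical
  have hW : 0 < ∏ p ∈ U, p := Finset.prod_pos fun p hp => (hU p hp).pos
  have hper : Function.Periodic (av U R) (∏ p ∈ U, p) := av_periodic U R fun p hp => Finset.dvd_prod_of_mem _ hp
  have h1 : ∀ x : ℕ, ∑ n ∈ Finset.range x, (if av U R n then (1 : ℝ) else 0) = (Nat.count (av U R) x : ℝ) := by
    intro x
    rw [Finset.sum_boole, Nat.count_eq_card_filter_range]
  rw [Finset.sum_Ico_eq_sub _ hab, h1, h1, ← av_dens U hU R hR]
  have h2 := abs_le.1 (count_periodic (av U R) _ hW hper a)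
  have h3 := abs_le.1 (count_periodic (av U R) _ hW hper b)
  rw [abs_le]
  constructor <;> linarith [h2.1, h2.2, h3.1, h3.2]

end Pool.Agent.N732.GX
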