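import Mathlib
import Pool.Agent.N732.GS.Pair

set_option autoImplicit false
set_option linter.unusedSectionVars false

/-! # Truncation of the singular series: the primes beyond the truncation -/

open Filter Set
open scoped Topology

namespace Pool.Agent.N732.GX

open Pool.Agent.R528.RM Pool.Agent.N732.GS

/-- the factors at the primes above `y` -/
lemma tail_bounds' (H : Finset ℕ) {y : ℕ} (hy : 2 * H.card ≤ y) (hy2 : 2 * H.card ^ 2 ≤ y) (hy1 : 1 ≤ y) (R : Finset ℕ)
    (hR : ∀ p ∈ R, p.Prime) (hRy : ∀ p ∈ R, y < p) :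
    ∏ p ∈ R, lfac H p ≤ Real.exp (2 * H.card / y * ((bad H).filter (y < ·)).card) := by
  classical
  have hy0 : (0 : ℝ) < y := by exact_mod_cast hy1
  calc ∏ p ∈ R, lfac H p ≤ ∏ p ∈ R, (if p ∈ bad H then 1 + 2 * (H.card : ℝ) / y else 1) := by
          apply Finset.prod_le_prod (fun p hp => lfac_nonneg H (hR p hp))
          intro p hp
          split_ifs with h
          · refine (lfac_upper H (hR p hp) (hy.trans (hRy p hp).le)).trans ?_
            rw [div_eq_mul_inv]
            have : (p : ℝ)⁻¹ ≤ (y : ℝ)⁻¹ := inv_anti₀ hy0 (by exact_mod_cast (hRy p hp).le)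
            have := mul_le_mul_of_nonneg_left this (show 0 ≤ 2 * (H.card : ℝ) by positivity)
            linarith
          · exact lfac_le_one H (hR p hp) (occ_eq_of_not_bad H (hR p hp) h)
      _ = (1 + 2 * (H.card : ℝ) / y) ^ (R.filter (· ∈ bad H)).card := by
          rw [← Finset.prod_filter, Finset.prod_const]
      _ ≤ (1 + 2 * (H.card : ℝ) / y) ^ ((bad H).filter (y < ·)).card := by
          apply pow_le_pow_right₀
          · have : 0 ≤ 2 * (H.card : ℝ) / y := by positivity
            linarith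
          · refine Finset.card_le_card fun p hp => ?_
            rw [Finset.mem_filter] at hp ⊢
            exact ⟨hp.2, hRy p hp.1⟩
      _ ≤ (Real.exp (2 * (H.card : ℝ) / y)) ^ ((bad H).filter (y < ·)).card := by
          apply pow_le_pow_left₀ (by positivity)
          have := Real.add_one_le_exp (2 * (H.card : ℝ) / y)
          linarith
      _ = _ := by
          rw [← Real.exp_nat_mul]
          congr 1
          ring

/-- truncation of the singular series -/
lemma sing_bounds' (H : Finset ℕ) {y : ℕ} (hy : 2 * H.card ≤ y) (hy2 : 2 * H.card ^ 2 ≤ y) (hy1 : 1 ≤ y) (P : Finset ℕ)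
    (hP : ∀ p ∈ P, p.Prime) (hPy : ∀ p : ℕ, p.Prime → p ≤ y → p ∈ P) :
    (1 - 2 * (H.card : ℝ) ^ 2 / y) * singH P H ≤ sing H ∧
      sing H ≤ Real.exp (2 * H.card / y * ((bad H).filter (y < ·)).card) * singH P H := by
  classical
  refine ⟨(sing_bounds H hy hy2 hy1 P hP hPy).1, ?_⟩
  have hprod := (lfac_multipliable H).hasProd
  have hev : ∀ᶠ s : Finset Nat.Primes in atTop,
      ∏ p ∈ s, lfac H p ≤ Real.exp (2 * H.card / y * ((bad H).filter (y < ·)).card) * singH P H := by
    filter_upwards [eventually_ge_atTop (P.subtype Nat.Prime)] with s hs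
    set Q : Finset ℕ := s.map ⟨fun p : Nat.Primes => (p : ℕ), Nat.Primes.coe_nat_injective⟩ with hQ
    have e1 : ∏ p ∈ s, lfac H p = ∏ p ∈ Q, lfac H p := by
      rw [hQ, Finset.prod_map]
      rfl
    have hPQ : P ⊆ Q := by
      intro p hp
      rw [hQ, Finset.mem_map]
      exact ⟨⟨p, hP p hp⟩, hs (by rw [Finset.mem_subtype]; exact hp), rfl⟩
    have hQp : ∀ p ∈ Q, p.Prime := by
      intro p hp
      rw [hQ, Finset.mem_map] at hp
      obtain ⟨q, _, rfl⟩ := hp
      exact q.2
    have e2 : ∏ p ∈ Q, lfac H p = (∏ p ∈ Q \ P, lfac H p) * singH P H := by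
      rw [← Finset.prod_sdiff hPQ]
      rfl
    have h0 : 0 ≤ singH P H := Finset.prod_nonneg fun p hp => lfac_nonneg H (hP p hp)
    have h1 := tail_bounds' H hy hy2 hy1 (Q \ P) (fun p hp => hQp p (Finset.mem_sdiff.1 hp).1) (fun p hp => by
      by_contra hcon
      exact (Finset.mem_sdiff.1 hp).2 (hPy p (hQp p (Finset.mem_sdiff.1 hp).1) (not_lt.1 hcon)))
    rw [e1, e2]
    exact mul_le_mul_of_nonneg_right h1 h0
  exact le_of_tendsto hprod hev

lemma bad_pair (n : ℕ) : bad {0, n} ⊆ n.primeFactors := by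
  classical
  intro p hp
  unfold bad at hp
  rw [Finset.mem_biUnion] at hp
  obtain ⟨⟨a, b⟩, hab, hp⟩ := hp
  rw [Finset.mem_product] at hab
  simp only [Finset.mem_insert, Finset.mem_singleton] at hab
  obtain ⟨ha, hb⟩ := hab
  simp only at hp
  rcases ha with rfl | rfl <;> rcases hb with rfl | rfl <;> simp at hp ⊢ <;> exact hp

/-- the number of prime factors above `y` -/
lemma bad_pair_card {n y : ℕ} (hn : 0 < n) (hy : 1 < y) :
    ((((bad {0, n}).filter (y < ·)).card : ℕ) : ℝ) * Real.log y ≤ Real.log n := by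
  classical
  set B := (bad {0, n}).filter (y < ·) with hB
  have hBp : ∀ p ∈ B, p.Prime ∧ y < p ∧ p ∣ n := by
    intro p hp
    rw [hB, Finset.mem_filter] at hp
    have h1 := bad_pair n hp.1
    exact ⟨Nat.prime_of_mem_primeFactors h1, hp.2, Nat.dvd_of_mem_primeFactors h1⟩
  have h1 : ∏ p ∈ B, p ∣ n := Finset.prod_primes_dvd n (fun p hp => (hBp p hp).1.prime) (fun p hp => (hBp p hp).2.2)
  have h2 : y ^ B.card ≤ n := by
    refine le_trans ?_ (Nat.le_of_dvd hn h1)
    rw [← Finset.prod_const]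
    exact Finset.prod_le_prod' fun p hp => (hBp p hp).2.1.le
  have h3 : ((y : ℝ)) ^ B.card ≤ n := by exact_mod_cast h2
  have hy0 : (0 : ℝ) < y := by exact_mod_cast (by omega : 0 < y)
  have h4 := Real.log_le_log (by positivity) h3
  rwa [Real.log_pow] at h4

/-- comparison of the truncated singular series of the pair `{0, n}` with the singular series -/
lemma pair_close {n y : ℕ} (hn : 0 < n) (hy : 8 ≤ y) {δ : ℝ} (hδ : 0 < δ) (hδ1 : δ ≤ 1 / 2) (h1 : 8 / (y : ℝ) ≤ δ / 2)
    (h2 : 4 * Real.log n ≤ δ / 2 * (y * Real.log y)) (P : Finset ℕ)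
    (hP : ∀ p ∈ P, p.Prime) (hPy : ∀ p : ℕ, p.Prime → p ≤ y → p ∈ P) :
    (1 - δ) * sing {0, n} ≤ singH P {0, n} ∧ singH P {0, n} ≤ (1 + δ) * sing {0, n} := by
  have hk : ({0, n} : Finset ℕ).card = 2 := pair_card hn
  have hyR : (8 : ℝ) ≤ y := by exact_mod_cast hy
  have hly : 0 < Real.log y := Real.log_pos (by linarith)
  obtain ⟨g1, g2⟩ := sing_bounds' {0, n} (y := y) (by rw [hk]; omega) (by rw [hk]; omega) (by omega) P hP hPy
  rw [hk] at g1 g2
  have hS0 : 0 ≤ singH P {0, n} := singH_nonneg _ _ hP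
  set S := singH P {0, n}
  set T := sing {0, n}
  set m := ((bad {0, n}).filter (y < ·)).card with hm
  have h3 : 2 * ((2 : ℕ) : ℝ) / y * (m : ℝ) ≤ δ / 2 := by
    have h4 := bad_pair_card hn (show 1 < y by omega)
    rw [← hm] at h4
    have h5 : 4 * ((m : ℝ) * Real.log y) ≤ δ / 2 * (y * Real.log y) := by linarith
    have h6 : 4 * (m : ℝ) ≤ δ / 2 * y := by
      have h7 : (4 * (m : ℝ)) * Real.log y ≤ (δ / 2 * y) * Real.log y := by linarith
      exact le_of_mul_le_mul_right h7 hly
    rw [div_mul_eq_mul_div, div_le_iff₀ (by linarith)]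
    push_cast
    linarith
  have hexp : Real.exp (2 * ((2 : ℕ) : ℝ) / y * (m : ℝ)) ≤ 1 + δ := by
    calc Real.exp (2 * ((2 : ℕ) : ℝ) / y * (m : ℝ)) ≤ Real.exp (δ / 2) := Real.exp_le_exp.2 h3
      _ ≤ 1 + 2 * (δ / 2) := by
          have h := Real.abs_exp_sub_one_le (x := δ / 2) (by rw [abs_of_nonneg (by linarith)]; linarith)
          rw [abs_of_nonneg (show 0 ≤ δ / 2 by linarith)] at h
          have := (le_abs_self _).trans h
          linarith
      _ = 1 + δ := by ring
  have hT0 : 0 ≤ T := by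
    refine le_trans (mul_nonneg ?_ hS0) g1
    have : 2 * ((2 : ℕ) : ℝ) ^ 2 / y ≤ 1 := by
      rw [div_le_one (by linarith)]
      push_cast
      linarith
    linarith
  constructor
  · have h5 : T ≤ (1 + δ) * S := g2.trans (mul_le_mul_of_nonneg_right hexp hS0)
    have h6 : (1 - δ) * T ≤ (1 - δ) * ((1 + δ) * S) := mul_le_mul_of_nonneg_left h5 (by linarith)
    nlinarith [mul_nonneg hS0 (sq_nonneg δ)]
  · have h5 : (1 - δ / 2) * S ≤ T := by
      refine le_trans (mul_le_mul_of_nonneg_right ?_ hS0) g1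
      have : 2 * ((2 : ℕ) : ℝ) ^ 2 / y = 8 / y := by norm_num
      rw [this]
      linarith
    have h6 : (1 + δ) * ((1 - δ / 2) * S) ≤ (1 + δ) * T := mul_le_mul_of_nonneg_left h5 (by linarith)
    have h7 : 1 ≤ (1 + δ) * (1 - δ / 2) := by nlinarith
    nlinarith [mul_le_mul_of_nonneg_right h7 hS0]

end Pool.Agent.N732.GX
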