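import Mathlib
import Pool.Agent.R528.RM.Gold

set_option autoImplicit false
set_option linter.unusedSectionVars false

/-! # Symmetric pairs of chosen integers: replacing the indicators by the profile -/

open MeasureTheory Filter Set
open scoped ENNReal Topology

namespace Pool.Agent.N732.GX

open Pool.Agent.R528.RM

variable {Ω : Type} {m0 : MeasurableSpace Ω} {μ : Measure Ω} [IsProbabilityMeasure μ]
  {ℱ : Filtration ℕ m0} {A : ℕ → Set Ω}

/-- the number of pairs with sum `n` at distance at most `H` from the middle -/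
noncomputable def RS (A : ℕ → Set Ω) (n H : ℕ) (ω : Ω) : ℝ :=
  ∑ i ∈ Finset.range H, In A (n / 2 - 1 - i) ω * In A (n - n / 2 + 1 + i) ω

/-- the expected number -/
noncomputable def ES (ρ : ℕ → ℝ) (n H : ℕ) : ℝ := ∑ i ∈ Finset.range H, ρ (n / 2 - 1 - i) * ρ (n - n / 2 + 1 + i)

lemma sym_errors (hA : ∀ n, MeasurableSet[ℱ n] (A n)) (ρ : ℕ → ℝ) (hρ : ∀ n, 0 ≤ ρ n ∧ ρ n ≤ 1) :
    ∀ᵐ ω ∂μ, ∀ᶠ n : ℕ in atTop, ∀ H : ℕ, 1 ≤ H → 8 * H ≤ n →
      |Sw μ ℱ A (n - n / 2) (fun k => In A (n / 2 - 1 - k)) H ω| < 3 * √(H * Real.log n) ∧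
      |Sw μ ℱ A (n / 2 - H - 1) (fun k _ => ρ (n - n / 2 + H - k)) H ω| < 3 * √(H * Real.log n) := by
  classical
  have hsum : Summable (fun n : ℕ => 4 * ((n : ℝ) ^ 2)⁻¹) :=
    (Real.summable_nat_pow_inv.2 (by norm_num)).mul_left 4
  have key : ∀ (n : ℕ) (a M : ℕ) (w : ℕ → Ω → ℝ), 4 ≤ n → (∀ k, StronglyMeasurable[ℱ (a + k)] (w k)) →
      (∀ k ω, |w k ω| ≤ 1) → 0 < M →
      μ.real {ω | 3 * √(M * Real.log n) ≤ |Sw μ ℱ A a w M ω|} ≤ 2 * ((n : ℝ) ^ 4)⁻¹ := by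
    intro n a M w hn hw hw1 hM
    have hn' : (4 : ℝ) ≤ n := by exact_mod_cast hn
    have hlog : 0 ≤ Real.log (n : ℝ) := Real.log_natCast_nonneg n
    have h1 := Sw_tail (μ := μ) hA a w hw hw1 M hM (lam := 3 * √(M * Real.log n)) (by positivity)
    refine h1.trans (mul_le_mul_of_nonneg_left ?_ (by norm_num))
    have e1 : ((n : ℝ) ^ 4)⁻¹ = Real.exp (-(4 * Real.log n)) := by
      rw [Real.exp_neg, mul_comm, Real.exp_mul, Real.exp_log (by linarith)]
      norm_num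
    rw [e1]
    apply Real.exp_le_exp.2
    apply neg_le_neg
    have hM' : (0 : ℝ) < M := by exact_mod_cast hM
    rw [mul_pow, Real.sq_sqrt (by positivity), le_div_iff₀ (by positivity)]
    nlinarith [mul_nonneg hM'.le hlog]
  set Bad : ℕ → Set Ω := fun n => ⋃ H ∈ Finset.Icc 1 (n / 8),
    ({ω | 3 * √(H * Real.log n) ≤ |Sw μ ℱ A (n - n / 2) (fun k => In A (n / 2 - 1 - k)) H ω|} ∪
     {ω | 3 * √(H * Real.log n) ≤ |Sw μ ℱ A (n / 2 - H - 1) (fun k _ => ρ (n - n / 2 + H - k)) H ω|}) with hBad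
  have hb : ∀ᶠ n in atTop, μ.real (Bad n) ≤ 4 * ((n : ℝ) ^ 2)⁻¹ := by
    filter_upwards [eventually_ge_atTop 4] with n hn
    have hn' : (4 : ℝ) ≤ n := by exact_mod_cast hn
    calc μ.real (Bad n) ≤ ∑ H ∈ Finset.Icc 1 (n / 8), μ.real ({ω | 3 * √(H * Real.log n) ≤ |Sw μ ℱ A (n - n / 2) (fun k => In A (n / 2 - 1 - k)) H ω|} ∪
          {ω | 3 * √(H * Real.log n) ≤ |Sw μ ℱ A (n / 2 - H - 1) (fun k _ => ρ (n - n / 2 + H - k)) H ω|}) :=
          measureReal_biUnion_finset_le _ _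
      _ ≤ ∑ _H ∈ Finset.Icc 1 (n / 8), 4 * ((n : ℝ) ^ 4)⁻¹ := by
          refine Finset.sum_le_sum fun H hH => ?_
          have hH' := Finset.mem_Icc.1 hH
          refine (measureReal_union_le _ _).trans ?_
          have h1 := key n (n - n / 2) H (fun k => In A (n / 2 - 1 - k)) hn (fun k => In_meas hA (by omega)) (fun k ω => by
            rw [abs_of_nonneg (In_nonneg _ _)]; exact In_le _ _) (by omega)
          have h2 := key n (n / 2 - H - 1) H (fun k _ => ρ (n - n / 2 + H - k)) hn (fun k => stronglyMeasurable_const) (fun k ω => by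
            rw [abs_of_nonneg (hρ _).1]; exact (hρ _).2) (by omega)
          linarith
      _ = ((n / 8 : ℕ) : ℝ) * (4 * ((n : ℝ) ^ 4)⁻¹) := by
          rw [Finset.sum_const, Nat.card_Icc, Nat.add_sub_cancel, nsmul_eq_mul]
      _ ≤ (n : ℝ) * (4 * ((n : ℝ) ^ 4)⁻¹) := by
          apply mul_le_mul_of_nonneg_right _ (by positivity)
          exact_mod_cast Nat.div_le_self _ _
      _ ≤ 4 * ((n : ℝ) ^ 2)⁻¹ := by
          have e : (n : ℝ) * (4 * ((n : ℝ) ^ 4)⁻¹) = 4 * ((n : ℝ) ^ 2)⁻¹ * (n : ℝ)⁻¹ := by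
            have : (n : ℝ) ≠ 0 := by linarith
            field_simp
          rw [e]
          refine mul_le_of_le_one_right (by positivity) ?_
          exact inv_le_one_of_one_le₀ (by linarith)
  filter_upwards [bc_real (μ := μ) hsum hb] with ω hω
  filter_upwards [hω] with n hn H hH1 hH2
  rw [hBad] at hn
  simp only [Set.mem_iUnion, not_exists] at hn
  have h1 := hn H (Finset.mem_Icc.2 ⟨hH1, by omega⟩)
  rw [Set.mem_union, not_or] at h1
  exact ⟨not_le.1 h1.1, not_le.1 h1.2⟩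

theorem sym_law (hA : ∀ n, MeasurableSet[ℱ n] (A n)) (ρ : ℕ → ℝ) (hρ : ∀ n, 0 ≤ ρ n ∧ ρ n ≤ 1)
    (hd : ∀ᵐ ω ∂μ, ∀ ε : ℝ, 0 < ε → ∀ᶠ n : ℕ in atTop, |dens μ ℱ A n ω - ρ (n + 1)| ≤ ε * ρ (n + 1)) :
    ∀ᵐ ω ∂μ, ∀ ε : ℝ, 0 < ε → ∀ᶠ n : ℕ in atTop, ∀ H : ℕ, 8 * H ≤ n →
      |RS A n H ω - ES ρ n H| ≤ 9 * √(H * Real.log n) + ε * ES ρ n H := by
  filter_upwards [sym_errors (μ := μ) hA ρ hρ, hd] with ω hω1 hω2 ε₀ hε₀
  set ε := min 1 (ε₀ / 3) with hε
  have hεpos : 0 < ε := lt_min one_pos (by positivity)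
  have hε1 : ε ≤ 1 := min_le_left _ _
  have hε3 : 3 * ε ≤ ε₀ := by
    have := min_le_right 1 (ε₀ / 3)
    linarith
  obtain ⟨N, hN⟩ := eventually_atTop.1 (hω2 ε hεpos)
  filter_upwards [hω1, eventually_ge_atTop (8 * N + 16)] with n hn1 hn3 H hH
  rcases Nat.eq_zero_or_pos H with h0 | h0
  · subst h0
    simp [RS, ES]
  obtain ⟨hT1, hT2⟩ := hn1 H h0 hH
  set lam := 3 * √(H * Real.log n) with hlam
  set I : ℕ → ℝ := fun j => In A j ω with hI
  have hI0 : ∀ j, 0 ≤ I j := fun j => In_nonneg j ω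
  set D : ℕ → ℝ := fun j => dens μ ℱ A j ω with hD
  set R := ∑ i ∈ Finset.range H, I (n / 2 - 1 - i) * I (n - n / 2 + 1 + i) with hR
  set E := ∑ i ∈ Finset.range H, ρ (n / 2 - 1 - i) * ρ (n - n / 2 + 1 + i) with hE
  set S1 := ∑ i ∈ Finset.range H, I (n / 2 - 1 - i) * ρ (n - n / 2 + 1 + i) with hS1
  have hE0 : 0 ≤ E := Finset.sum_nonneg fun j _ => mul_nonneg (hρ _).1 (hρ _).1
  have a1 : Sw μ ℱ A (n - n / 2) (fun k => In A (n / 2 - 1 - k)) H ω = R - ∑ i ∈ Finset.range H, I (n / 2 - 1 - i) * D (n - n / 2 + i) := by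
    unfold Sw
    rw [hR, ← Finset.sum_sub_distrib]
    refine Finset.sum_congr rfl fun i _ => ?_
    simp only [hI, hD, In]
    rw [show n - n / 2 + i + 1 = n - n / 2 + 1 + i by omega]
    ring
  have a2 : |∑ i ∈ Finset.range H, I (n / 2 - 1 - i) * D (n - n / 2 + i) - S1| ≤ ε * S1 := by
    rw [hS1, ← Finset.sum_sub_distrib, Finset.mul_sum]
    refine (Finset.abs_sum_le_sum_abs _ _).trans (Finset.sum_le_sum fun i _ => ?_)
    rw [← mul_sub, abs_mul, abs_of_nonneg (hI0 _)]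
    have h4 := hN (n - n / 2 + i) (by omega)
    rw [show n - n / 2 + i + 1 = n - n / 2 + 1 + i by omega] at h4
    calc I (n / 2 - 1 - i) * |D (n - n / 2 + i) - ρ (n - n / 2 + 1 + i)| ≤ I (n / 2 - 1 - i) * (ε * ρ (n - n / 2 + 1 + i)) :=
          mul_le_mul_of_nonneg_left h4 (hI0 _)
      _ = _ := by ring
  have a4 : Sw μ ℱ A (n / 2 - H - 1) (fun k _ => ρ (n - n / 2 + H - k)) H ω =
      S1 - ∑ i ∈ Finset.range H, D (n / 2 - 2 - i) * ρ (n - n / 2 + 1 + i) := by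
    unfold Sw
    rw [← Finset.sum_range_reflect, hS1, ← Finset.sum_sub_distrib]
    refine Finset.sum_congr rfl fun i hi => ?_
    have hi' := Finset.mem_range.1 hi
    simp only [hI, hD, In]
    rw [show n - n / 2 + H - (H - 1 - i) = n - n / 2 + 1 + i by omega, show n / 2 - H - 1 + (H - 1 - i) + 1 = n / 2 - 1 - i by omega,
      show n / 2 - H - 1 + (H - 1 - i) = n / 2 - 2 - i by omega]
    ring
  have a5 : |∑ i ∈ Finset.range H, D (n / 2 - 2 - i) * ρ (n - n / 2 + 1 + i) - E| ≤ ε * E := by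
    rw [hE, ← Finset.sum_sub_distrib, Finset.mul_sum]
    refine (Finset.abs_sum_le_sum_abs _ _).trans (Finset.sum_le_sum fun i hi => ?_)
    have hi' := Finset.mem_range.1 hi
    rw [← sub_mul, abs_mul, abs_of_nonneg (hρ (n - n / 2 + 1 + i)).1]
    have h4 := hN (n / 2 - 2 - i) (by omega)
    rw [show n / 2 - 2 - i + 1 = n / 2 - 1 - i by omega] at h4
    rw [← mul_assoc]
    exact mul_le_mul_of_nonneg_right h4 (hρ _).1
  rw [a1] at hT1
  rw [a4] at hT2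
  set P1 := ∑ i ∈ Finset.range H, I (n / 2 - 1 - i) * D (n - n / 2 + i)
  set P2 := ∑ i ∈ Finset.range H, D (n / 2 - 2 - i) * ρ (n - n / 2 + 1 + i)
  have hlam0 : 0 ≤ lam := by positivity
  have r1 : |S1 - E| ≤ lam + ε * E := by
    have b1 := abs_lt.1 hT2
    have b2 := abs_le.1 a5
    rw [abs_le]
    constructor <;> linarith [b1.1, b1.2, b2.1, b2.2]
  have r2 : ε * S1 ≤ ε * E + (lam + ε * E) := by
    have b1 := (abs_le.1 r1).2
    have b2 : ε * S1 ≤ ε * (E + (lam + ε * E)) := mul_le_mul_of_nonneg_left (by linarith) hεpos.le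
    have b3 : 0 ≤ lam + ε * E := by positivity
    have b4 : ε * (lam + ε * E) ≤ 1 * (lam + ε * E) := mul_le_mul_of_nonneg_right hε1 b3
    linarith
  have r3 : |R - E| ≤ 3 * lam + 3 * (ε * E) := by
    have b1 := abs_le.1 a2
    have b2 := abs_lt.1 hT1
    have b3 := abs_le.1 r1
    rw [abs_le]
    constructor <;> linarith [b1.1, b1.2, b2.1, b2.2, b3.1, b3.2]
  have r4 : 3 * ε * E ≤ ε₀ * E := mul_le_mul_of_nonneg_right hε3 hE0
  have e1 : RS A n H ω = R := rfl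
  have e2 : ES ρ n H = E := rfl
  rw [e1, e2]
  have r7 : 9 * √(H * Real.log n) = 3 * lam := by rw [hlam]; ring
  rw [r7]
  linarith

end Pool.Agent.N732.GX
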