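import Mathlib
import Pool.Agent.N732.GX.Crt
import Pool.Agent.N732.GX.Sng
import Pool.Agent.N732.GX.Sym

set_option autoImplicit false
set_option linter.unusedSectionVars false

/-! # Symmetric pairs: the expected number in models with a growing sieve -/

open Filter Set
open scoped Topology

namespace Pool.Agent.N732.GX

open Pool.Agent.R528.RM Pool.Agent.N732.GS

/-- forbidden residues for the index -/
def RR (P1 P2 : Finset ℕ) (lo hi p : ℕ) : Finset ℕ :=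
  (if p ∈ P1 then {lo % p} else ∅) ∪ (if p ∈ P2 then {(p - hi % p) % p} else ∅)

lemma RR_sub (P1 P2 : Finset ℕ) (lo hi : ℕ) {p : ℕ} (hp : 0 < p) : RR P1 P2 lo hi p ⊆ Finset.range p := by
  intro r hr
  unfold RR at hr
  rw [Finset.mem_union] at hr
  rw [Finset.mem_range]
  rcases hr with h | h
  · split_ifs at h
    · rw [Finset.mem_singleton] at h
      rw [h]
      exact Nat.mod_lt _ hp
    · simp at h
  · split_ifs at h
    · rw [Finset.mem_singleton] at h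
      rw [h]
      exact Nat.mod_lt _ hp
    · simp at h

lemma neg_res {p hi i : ℕ} (hp : 0 < p) : i % p = (p - hi % p) % p ↔ p ∣ hi + i := by
  have ha := Nat.mod_lt hi hp
  have hb := Nat.mod_lt i hp
  rw [Nat.dvd_iff_mod_eq_zero, Nat.add_mod]
  set a := hi % p
  set b := i % p
  rcases Nat.eq_zero_or_pos a with h0 | h0
  · rw [h0, Nat.sub_zero, Nat.mod_self, zero_add, Nat.mod_eq_of_lt hb]
  · rw [Nat.mod_eq_of_lt (show p - a < p by omega)]
    constructor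
    · intro h
      rw [show a + b = p by omega, Nat.mod_self]
    · intro h
      have h1 : p ∣ a + b := Nat.dvd_of_mod_eq_zero h
      obtain ⟨k, hk⟩ := h1
      have hk1 : k = 1 := by
        have h2 : k < 2 := by
          by_contra hcon
          have : p * 2 ≤ p * k := Nat.mul_le_mul_left p (by omega)
          omega
        have h3 : k ≠ 0 := by
          rintro rfl
          omega
        omega
      rw [hk1] at hk
      omega

lemma av_iff {P1 P2 : Finset ℕ} (hP1 : ∀ p ∈ P1, p.Prime) (hP2 : ∀ p ∈ P2, p.Prime) {lo hi i : ℕ} (h : i ≤ lo) :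
    av (P1 ∪ P2) (RR P1 P2 lo hi) i ↔ (∀ p ∈ P1, ¬ p ∣ lo - i) ∧ (∀ p ∈ P2, ¬ p ∣ hi + i) := by
  unfold av RR
  constructor
  · intro H
    constructor
    · intro p hp hd
      apply H p (Finset.mem_union_left _ hp)
      rw [Finset.mem_union]
      left
      rw [if_pos hp, Finset.mem_singleton]
      exact (Nat.modEq_iff_dvd' h).2 hd
    · intro p hp hd
      apply H p (Finset.mem_union_right _ hp)
      rw [Finset.mem_union]
      right
      rw [if_pos hp, Finset.mem_singleton]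
      exact (neg_res (hP2 p hp).pos).2 hd
  · rintro ⟨H1, H2⟩ p hp hmem
    rw [Finset.mem_union] at hmem
    rcases hmem with hm | hm
    · split_ifs at hm with hp1
      · rw [Finset.mem_singleton] at hm
        exact H1 p hp1 ((Nat.modEq_iff_dvd' h).1 hm)
      · simp at hm
    · split_ifs at hm with hp2
      · rw [Finset.mem_singleton] at hm
        exact H2 p hp2 ((neg_res (hP2 p hp2).pos).1 hm)
      · simp at hm

lemma RR_card {P1 P2 : Finset ℕ} {lo hi p : ℕ} (hp : p.Prime) (h : p ∈ P1 ∪ P2) :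
    (RR P1 P2 lo hi p).card = if p ∈ P1 ∩ P2 then occ {0, lo + hi} p else 1 := by
  classical
  unfold RR
  rw [Finset.mem_union] at h
  by_cases h1 : p ∈ P1
  · by_cases h2 : p ∈ P2
    · rw [if_pos h1, if_pos h2, if_pos (Finset.mem_inter.2 ⟨h1, h2⟩), occ_pair]
      have h3 : lo % p = (p - hi % p) % p ↔ p ∣ hi + lo := neg_res hp.pos
      by_cases h4 : p ∣ lo + hi
      · rw [if_pos h4, h3.2 (by rwa [add_comm]), Finset.union_self, Finset.card_singleton]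
      · rw [if_neg h4, Finset.card_union_of_disjoint, Finset.card_singleton, Finset.card_singleton]
        rw [Finset.disjoint_singleton]
        intro h5
        exact h4 (by rw [add_comm]; exact h3.1 h5)
    · rw [if_pos h1, if_neg h2, if_neg (fun h => h2 (Finset.mem_inter.1 h).2), Finset.union_empty, Finset.card_singleton]
  · have h2 : p ∈ P2 := by tauto
    rw [if_neg h1, if_pos h2, if_neg (fun h => h1 (Finset.mem_inter.1 h).1), Finset.empty_union, Finset.card_singleton]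

lemma const_pair (P1 P2 : Finset ℕ) (hP1 : ∀ p ∈ P1, p.Prime) (hP2 : ∀ p ∈ P2, p.Prime) (lo hi : ℕ) (hn : 0 < lo + hi) :
    (∏ p ∈ P1 ∪ P2, (1 - ((RR P1 P2 lo hi p).card : ℝ) / p)) *
      ((((∏ p ∈ P1, p : ℕ) : ℝ) / Nat.totient (∏ p ∈ P1, p)) * (((∏ p ∈ P2, p : ℕ) : ℝ) / Nat.totient (∏ p ∈ P2, p))) =
    singH (P1 ∩ P2) {0, lo + hi} := by
  classical
  rw [totient_prod P1 hP1, totient_prod P2 hP2, ← Finset.prod_union_inter, ← mul_assoc, ← Finset.prod_mul_distrib]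
  have hU : ∀ p ∈ P1 ∪ P2, p.Prime := by
    intro p hp
    rcases Finset.mem_union.1 hp with h | h
    · exact hP1 p h
    · exact hP2 p h
  have h1 : ∏ p ∈ P1 ∪ P2, ((1 - ((RR P1 P2 lo hi p).card : ℝ) / p) * (1 - 1 / (p : ℝ))⁻¹) =
      ∏ p ∈ P1 ∩ P2, ((1 - (occ {0, lo + hi} p : ℝ) / p) * (1 - 1 / (p : ℝ))⁻¹) := by
    rw [← Finset.prod_subset (Finset.inter_subset_union) (f := fun p => (1 - ((RR P1 P2 lo hi p).card : ℝ) / p) * (1 - 1 / (p : ℝ))⁻¹)]
    · refine Finset.prod_congr rfl fun p hp => ?_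
      rw [RR_card (hU p (Finset.inter_subset_union hp)) (Finset.inter_subset_union hp), if_pos hp]
    · intro p hp hp2
      rw [RR_card (hU p hp) hp, if_neg hp2]
      have h3 := den_pos (hU p hp) 1
      rw [pow_one] at h3
      push_cast
      exact mul_inv_cancel₀ h3.ne'
  rw [h1, ← Finset.prod_mul_distrib]
  unfold singH
  refine Finset.prod_congr rfl fun p hp => ?_
  have hk : ({0, lo + hi} : Finset ℕ).card = 2 := pair_card hn
  rw [hk, sq, ← div_div, div_eq_mul_inv (_ / _) (1 - 1 / (p : ℝ)), div_eq_mul_inv (_ - _) (1 - 1 / (p : ℝ))]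

lemma prod_union_le {P1 P2 : Finset ℕ} (hP1 : ∀ p ∈ P1, p.Prime) (_hP2 : ∀ p ∈ P2, p.Prime) :
    ((∏ p ∈ P1 ∪ P2, p : ℕ) : ℝ) ≤ ((∏ p ∈ P1, p : ℕ) : ℝ) * ((∏ p ∈ P2, p : ℕ) : ℝ) := by
  classical
  have h1 : (∏ p ∈ P1 ∪ P2, p) * ∏ p ∈ P1 ∩ P2, p = (∏ p ∈ P1, p) * ∏ p ∈ P2, p := Finset.prod_union_inter
  have h2 : 0 < ∏ p ∈ P1 ∩ P2, p := Finset.prod_pos fun p hp => (hP1 p (Finset.mem_inter.1 hp).1).pos
  have h3 : ∏ p ∈ P1 ∪ P2, p ≤ (∏ p ∈ P1, p) * ∏ p ∈ P2, p := by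
    rw [← h1]
    exact Nat.le_mul_of_pos_right _ h2
  exact_mod_cast h3

lemma coprime_prod_iff {P : Finset ℕ} (hP : ∀ p ∈ P, p.Prime) (m : ℕ) : Nat.Coprime m (∏ p ∈ P, p) ↔ ∀ p ∈ P, ¬ p ∣ m := by
  rw [Nat.coprime_prod_right_iff]
  refine forall₂_congr fun p hp => ?_
  rw [Nat.coprime_comm]
  exact Nat.Prime.coprime_iff_not_dvd (hP p hp)

/-- one piece -/
lemma piece (P : ℕ → Finset ℕ) (hP : ∀ j, ∀ p ∈ P j, p.Prime) {n a b j1 j2 : ℕ} (hn : 16 ≤ n) (hab : a ≤ b) (hb : 8 * b ≤ n)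
    (h1 : ∀ i ∈ Finset.Ico a b, Nat.log 2 (n / 2 - 1 - i) = j1) (h2 : ∀ i ∈ Finset.Ico a b, Nat.log 2 (n - n / 2 + 1 + i) = j2) :
    ∑ i ∈ Finset.Ico a b, rhoG P (n / 2 - 1 - i) * rhoG P (n - n / 2 + 1 + i) ≤
      ((b : ℝ) - a) * (singH (P j1 ∩ P j2) {0, n} / Real.log ((n : ℝ) / 4) ^ 2) +
        2 * (((∏ p ∈ P j1, p : ℕ) : ℝ) * ((∏ p ∈ P j2, p : ℕ) : ℝ)) ∧
    (((∏ p ∈ P j1, p : ℕ) : ℝ) / Nat.totient (∏ p ∈ P j1, p) ≤ Real.log n →
      ((∏ p ∈ P j2, p : ℕ) : ℝ) / Nat.totient (∏ p ∈ P j2, p) ≤ Real.log n →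
      ((b : ℝ) - a) * (singH (P j1 ∩ P j2) {0, n} / Real.log n ^ 2) -
        2 * (((∏ p ∈ P j1, p : ℕ) : ℝ) * ((∏ p ∈ P j2, p : ℕ) : ℝ)) ≤
      ∑ i ∈ Finset.Ico a b, rhoG P (n / 2 - 1 - i) * rhoG P (n - n / 2 + 1 + i)) := by
  classical
  set lo := n / 2 - 1 with hlo
  set hi := n - n / 2 + 1 with hhi
  have hlh : lo + hi = n := by omega
  set P1 := P j1 with hP1d
  set P2 := P j2 with hP2d
  set W1 := ∏ p ∈ P1, p with hW1
  set W2 := ∏ p ∈ P2, p with hW2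
  have hW1p : 0 < W1 := Finset.prod_pos fun q hq => (hP j1 q hq).pos
  have hW2p : 0 < W2 := Finset.prod_pos fun q hq => (hP j2 q hq).pos
  set c1 := (W1 : ℝ) / Nat.totient W1 with hc1
  set c2 := (W2 : ℝ) / Nat.totient W2 with hc2
  have hc1p : 0 < c1 := div_pos (by exact_mod_cast hW1p) (by exact_mod_cast Nat.totient_pos.2 hW1p)
  have hc2p : 0 < c2 := div_pos (by exact_mod_cast hW2p) (by exact_mod_cast Nat.totient_pos.2 hW2p)
  set R := RR P1 P2 lo hi with hR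
  set d := ∏ p ∈ P1 ∪ P2, (1 - ((R p).card : ℝ) / p) with hd
  have hU : ∀ p ∈ P1 ∪ P2, p.Prime := by
    intro p hp
    rcases Finset.mem_union.1 hp with h | h
    · exact hP j1 p h
    · exact hP j2 p h
  have hd0 : 0 ≤ d := by
    refine Finset.prod_nonneg fun p hp => ?_
    have h3 := Finset.card_le_card (RR_sub P1 P2 lo hi (hU p hp).pos)
    rw [Finset.card_range] at h3
    have hp0 : (0 : ℝ) < p := by exact_mod_cast (hU p hp).pos
    have : ((R p).card : ℝ) / p ≤ 1 := by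
      rw [div_le_one hp0]
      exact_mod_cast h3
    linarith
  have hS : singH (P1 ∩ P2) {0, n} = d * (c1 * c2) := by
    rw [← hlh]
    exact (const_pair P1 P2 (hP j1) (hP j2) lo hi (by omega)).symm
  have hI := abs_le.1 (av_Ico (P1 ∪ P2) hU R (fun p hp => RR_sub P1 P2 lo hi (hU p hp).pos) hab)
  rw [← hd] at hI
  have hUle : ((∏ p ∈ P1 ∪ P2, p : ℕ) : ℝ) ≤ (W1 : ℝ) * W2 := prod_union_le (hP j1) (hP j2)
  have hba : (0 : ℝ) ≤ (b : ℝ) - a := by
    have : (a : ℝ) ≤ b := by exact_mod_cast hab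
    linarith
  have hnR : (16 : ℝ) ≤ n := by exact_mod_cast hn
  have hl4 : 0 < Real.log ((n : ℝ) / 4) := Real.log_pos (by linarith)
  have hln : 0 < Real.log (n : ℝ) := Real.log_pos (by linarith)
  -- the terms
  have hterm : ∀ i ∈ Finset.Ico a b, rhoG P (lo - i) * rhoG P (hi + i) =
      if av (P1 ∪ P2) R i then bb c1 (lo - i) * bb c2 (hi + i) else 0 := by
    intro i hi'
    have hi2 := Finset.mem_Ico.1 hi'
    have e1 := h1 i hi'
    have e2 := h2 i hi'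
    unfold rhoG rhoW bb
    rw [e1, e2]
    have h3 := av_iff (P1 := P1) (P2 := P2) (hP j1) (hP j2) (lo := lo) (hi := hi) (i := i) (by omega)
    by_cases h4 : av (P1 ∪ P2) R i
    · obtain ⟨h5, h6⟩ := h3.1 h4
      rw [if_pos h4, if_pos ((coprime_prod_iff (hP j1) _).2 h5), if_pos ((coprime_prod_iff (hP j2) _).2 h6)]
    · rw [if_neg h4]
      by_cases h5 : Nat.Coprime (lo - i) (∏ p ∈ P j1, p)
      · have h6 : ¬ Nat.Coprime (hi + i) (∏ p ∈ P j2, p) := fun h6 =>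
          h4 (h3.2 ⟨(coprime_prod_iff (hP j1) _).1 h5, (coprime_prod_iff (hP j2) _).1 h6⟩)
        rw [if_neg h6, mul_zero]
      · rw [if_neg h5, zero_mul]
  have hlogs : ∀ i ∈ Finset.Ico a b, Real.log ((n : ℝ) / 4) ≤ Real.log ((lo - i : ℕ) : ℝ) ∧ Real.log ((lo - i : ℕ) : ℝ) ≤ Real.log n ∧
      Real.log ((n : ℝ) / 4) ≤ Real.log ((hi + i : ℕ) : ℝ) ∧ Real.log ((hi + i : ℕ) : ℝ) ≤ Real.log n := by
    intro i hi'
    have hi2 := Finset.mem_Ico.1 hi'
    have g1 : n ≤ 4 * (lo - i) := by omega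
    have g2 : lo - i ≤ n := by omega
    have g3 : n ≤ 4 * (hi + i) := by omega
    have g4 : hi + i ≤ n := by omega
    have g1' : (n : ℝ) / 4 ≤ ((lo - i : ℕ) : ℝ) := by
      have : (n : ℝ) ≤ 4 * ((lo - i : ℕ) : ℝ) := by exact_mod_cast g1
      linarith
    have g3' : (n : ℝ) / 4 ≤ ((hi + i : ℕ) : ℝ) := by
      have : (n : ℝ) ≤ 4 * ((hi + i : ℕ) : ℝ) := by exact_mod_cast g3
      linarith
    refine ⟨Real.log_le_log (by linarith) g1', Real.log_le_log (by linarith) (by exact_mod_cast g2),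
      Real.log_le_log (by linarith) g3', Real.log_le_log (by linarith) (by exact_mod_cast g4)⟩
  rw [Finset.sum_congr rfl hterm]
  have hW0 : (0 : ℝ) ≤ (W1 : ℝ) * W2 := by positivity
  constructor
  · set w : ℝ := min 1 (c1 * c2 / Real.log ((n : ℝ) / 4) ^ 2) with hw
    have hw0 : 0 ≤ w := le_min zero_le_one (by positivity)
    have hw1 : w ≤ 1 := min_le_left _ _
    have hw2 : w ≤ c1 * c2 / Real.log ((n : ℝ) / 4) ^ 2 := min_le_right _ _
    have hpt : ∀ i ∈ Finset.Ico a b, (if av (P1 ∪ P2) R i then bb c1 (lo - i) * bb c2 (hi + i) else 0) ≤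
        (if av (P1 ∪ P2) R i then (1 : ℝ) else 0) * w := by
      intro i hi'
      obtain ⟨g1, g2, g3, g4⟩ := hlogs i hi'
      split_ifs with hg
      · rw [one_mul]
        refine le_min (mul_le_one₀ (bb_le c1 _) (bb_nonneg hc2p.le _) (bb_le c2 _)) ?_
        have b1 : bb c1 (lo - i) ≤ c1 / Real.log ((n : ℝ) / 4) :=
          (min_le_right _ _).trans (div_le_div_of_nonneg_left hc1p.le hl4 g1)
        have b2 : bb c2 (hi + i) ≤ c2 / Real.log ((n : ℝ) / 4) :=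
          (min_le_right _ _).trans (div_le_div_of_nonneg_left hc2p.le hl4 g3)
        calc bb c1 (lo - i) * bb c2 (hi + i) ≤ (c1 / Real.log ((n : ℝ) / 4)) * (c2 / Real.log ((n : ℝ) / 4)) :=
              mul_le_mul b1 b2 (bb_nonneg hc2p.le _) (by positivity)
          _ = _ := by rw [div_mul_div_comm, sq]
      · simp
    refine (Finset.sum_le_sum hpt).trans ?_
    rw [← Finset.sum_mul]
    have h3 : (∑ i ∈ Finset.Ico a b, (if av (P1 ∪ P2) R i then (1 : ℝ) else 0)) * w ≤ (((b : ℝ) - a) * d + 2 * ((W1 : ℝ) * W2)) * w :=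
      mul_le_mul_of_nonneg_right (by linarith [hI.2]) hw0
    have h4 : ((b : ℝ) - a) * d * w ≤ ((b : ℝ) - a) * d * (c1 * c2 / Real.log ((n : ℝ) / 4) ^ 2) :=
      mul_le_mul_of_nonneg_left hw2 (by positivity)
    have h5 : 2 * ((W1 : ℝ) * W2) * w ≤ 2 * ((W1 : ℝ) * W2) * 1 := mul_le_mul_of_nonneg_left hw1 (by positivity)
    have h6 : ((b : ℝ) - a) * d * (c1 * c2 / Real.log ((n : ℝ) / 4) ^ 2) =
        ((b : ℝ) - a) * (singH (P1 ∩ P2) {0, n} / Real.log ((n : ℝ) / 4) ^ 2) := by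
      rw [hS]
      ring
    rw [← h6]
    linarith
  · intro hcl1 hcl2
    set w : ℝ := c1 * c2 / Real.log (n : ℝ) ^ 2 with hw
    have hw0 : 0 ≤ w := by positivity
    have q1 : c1 / Real.log n ≤ 1 := (div_le_one hln).2 hcl1
    have q2 : c2 / Real.log n ≤ 1 := (div_le_one hln).2 hcl2
    have hwe : w = (c1 / Real.log n) * (c2 / Real.log n) := by rw [hw]; ring
    have hw1 : w ≤ 1 := by
      rw [hwe]
      exact mul_le_one₀ q1 (by positivity) q2
    have hpt : ∀ i ∈ Finset.Ico a b, (if av (P1 ∪ P2) R i then (1 : ℝ) else 0) * w ≤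
        (if av (P1 ∪ P2) R i then bb c1 (lo - i) * bb c2 (hi + i) else 0) := by
      intro i hi'
      obtain ⟨g1, g2, g3, g4⟩ := hlogs i hi'
      split_ifs with hg
      · rw [one_mul, hwe]
        refine mul_le_mul ?_ ?_ (by positivity) (bb_nonneg hc1p.le _)
        · exact le_min q1 (div_le_div_of_nonneg_left hc1p.le (by linarith) g2)
        · exact le_min q2 (div_le_div_of_nonneg_left hc2p.le (by linarith) g4)
      · simp
    refine le_trans ?_ (Finset.sum_le_sum hpt)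
    rw [← Finset.sum_mul]
    have h3 : (((b : ℝ) - a) * d - 2 * ((W1 : ℝ) * W2)) * w ≤ (∑ i ∈ Finset.Ico a b, (if av (P1 ∪ P2) R i then (1 : ℝ) else 0)) * w :=
      mul_le_mul_of_nonneg_right (by linarith [hI.1]) hw0
    have h5 : 2 * ((W1 : ℝ) * W2) * w ≤ 2 * ((W1 : ℝ) * W2) * 1 := mul_le_mul_of_nonneg_left hw1 (by positivity)
    have h6 : ((b : ℝ) - a) * d * w = ((b : ℝ) - a) * (singH (P1 ∩ P2) {0, n} / Real.log n ^ 2) := by
      rw [hS, hw]
      ring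
    rw [← h6]
    linarith

/-- all pieces -/
lemma total (P : ℕ → Finset ℕ) (hP : ∀ j, ∀ p ∈ P j, p.Prime) {n H : ℕ} (hn : 16 ≤ n) (hH : 8 * H ≤ n) {V T δ : ℝ}
    (hV0 : 0 ≤ V)
    (hV : ∀ j, Nat.log 2 (n / 2) - 1 ≤ j → j ≤ Nat.log 2 (n / 2) + 1 → ((∏ p ∈ P j, p : ℕ) : ℝ) ≤ V)
    (hc : ∀ j, Nat.log 2 (n / 2) - 1 ≤ j → j ≤ Nat.log 2 (n / 2) + 1 →
      ((∏ p ∈ P j, p : ℕ) : ℝ) / Nat.totient (∏ p ∈ P j, p) ≤ Real.log n)
    (hS : ∀ j j', Nat.log 2 (n / 2) - 1 ≤ j → j ≤ Nat.log 2 (n / 2) + 1 → Nat.log 2 (n / 2) - 1 ≤ j' → j' ≤ Nat.log 2 (n / 2) + 1 →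
      (1 - δ) * T ≤ singH (P j ∩ P j') {0, n} ∧ singH (P j ∩ P j') {0, n} ≤ (1 + δ) * T) :
    (H : ℝ) * ((1 - δ) * T / Real.log n ^ 2) - 6 * V ^ 2 ≤ ES (rhoG P) n H ∧
    ES (rhoG P) n H ≤ (H : ℝ) * ((1 + δ) * T / Real.log ((n : ℝ) / 4) ^ 2) + 6 * V ^ 2 := by
  set K := Nat.log 2 (n / 2) with hK
  have hK1 : 2 ^ K ≤ n / 2 := Nat.pow_log_le_self 2 (by omega)
  have hK2 : n / 2 < 2 ^ (K + 1) := Nat.lt_pow_succ_log_self (by norm_num) _
  have hK3 : 1 ≤ K := by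
    rw [hK]
    exact Nat.log_pos (by norm_num) (by omega)
  have hpow : 2 ^ K = 2 * 2 ^ (K - 1) := by
    conv_lhs => rw [show K = (K - 1) + 1 by omega]
    rw [pow_succ]
    ring
  have hpow1 : 2 ^ (K + 1) = 2 * 2 ^ K := by rw [pow_succ]; ring
  have hpow2 : 2 ^ (K + 1 + 1) = 4 * 2 ^ K := by rw [pow_succ, pow_succ]; ring
  have hnR : (16 : ℝ) ≤ n := by exact_mod_cast hn
  have hl4 : 0 < Real.log ((n : ℝ) / 4) := Real.log_pos (by linarith)
  have hln : 0 < Real.log (n : ℝ) := Real.log_pos (by linarith)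
  -- one piece
  have hone : ∀ a b j1 j2 : ℕ, a ≤ b → b ≤ H → K - 1 ≤ j1 → j1 ≤ K + 1 → K - 1 ≤ j2 → j2 ≤ K + 1 →
      (∀ i ∈ Finset.Ico a b, Nat.log 2 (n / 2 - 1 - i) = j1) → (∀ i ∈ Finset.Ico a b, Nat.log 2 (n - n / 2 + 1 + i) = j2) →
      ((b : ℝ) - a) * ((1 - δ) * T / Real.log n ^ 2) - 2 * V ^ 2 ≤
        ∑ i ∈ Finset.Ico a b, rhoG P (n / 2 - 1 - i) * rhoG P (n - n / 2 + 1 + i) ∧
      ∑ i ∈ Finset.Ico a b, rhoG P (n / 2 - 1 - i) * rhoG P (n - n / 2 + 1 + i) ≤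
        ((b : ℝ) - a) * ((1 + δ) * T / Real.log ((n : ℝ) / 4) ^ 2) + 2 * V ^ 2 := by
    intro a b j1 j2 hab hb k1 k2 k3 k4 g1 g2
    obtain ⟨h1, h2⟩ := piece P hP hn hab (by omega) g1 g2
    have h3 := h2 (hc j1 k1 k2) (hc j2 k3 k4)
    obtain ⟨h4, h5⟩ := hS j1 j2 k1 k2 k3 k4
    have hba : (0 : ℝ) ≤ (b : ℝ) - a := by
      have : (a : ℝ) ≤ b := by exact_mod_cast hab
      linarith
    have h6 : ((∏ p ∈ P j1, p : ℕ) : ℝ) * ((∏ p ∈ P j2, p : ℕ) : ℝ) ≤ V ^ 2 := by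
      rw [sq]
      exact mul_le_mul (hV j1 k1 k2) (hV j2 k3 k4) (Nat.cast_nonneg _) hV0
    constructor
    · refine le_trans ?_ h3
      have h7 : (1 - δ) * T / Real.log n ^ 2 ≤ singH (P j1 ∩ P j2) {0, n} / Real.log n ^ 2 :=
        div_le_div_of_nonneg_right h4 (by positivity)
      have h8 := mul_le_mul_of_nonneg_left h7 hba
      linarith
    · refine h1.trans ?_
      have h7 : singH (P j1 ∩ P j2) {0, n} / Real.log ((n : ℝ) / 4) ^ 2 ≤ (1 + δ) * T / Real.log ((n : ℝ) / 4) ^ 2 :=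
        div_le_div_of_nonneg_right h5 (by positivity)
      have h8 := mul_le_mul_of_nonneg_left h7 hba
      linarith
  -- the thresholds
  set t1 := n / 2 - 2 ^ K with ht1
  set t2 := 2 ^ (K + 1) - (n - n / 2 + 1) with ht2
  set s1 := min (min t1 t2) H with hs1
  set s2 := min (max t1 t2) H with hs2
  have hs12 : s1 ≤ s2 := by omega
  have hs2H : s2 ≤ H := by omega
  have hlow : ∀ i, i < H → i < t1 → Nat.log 2 (n / 2 - 1 - i) = K := by
    intro i h1 h2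
    rw [Nat.log_eq_iff (Or.inr ⟨by norm_num, by omega⟩)]
    omega
  have hlow2 : ∀ i, i < H → t1 ≤ i → Nat.log 2 (n / 2 - 1 - i) = K - 1 := by
    intro i h1 h2
    rw [Nat.log_eq_iff (Or.inr ⟨by norm_num, by omega⟩), show K - 1 + 1 = K by omega]
    omega
  have hhigh : ∀ i, i < H → i < t2 → Nat.log 2 (n - n / 2 + 1 + i) = K := by
    intro i h1 h2
    rw [Nat.log_eq_iff (Or.inr ⟨by norm_num, by omega⟩)]
    omega
  have hhigh2 : ∀ i, i < H → t2 ≤ i → Nat.log 2 (n - n / 2 + 1 + i) = K + 1 := by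
    intro i h1 h2
    rw [Nat.log_eq_iff (Or.inr ⟨by norm_num, by omega⟩)]
    omega
  have b1 := hone 0 s1 K K (Nat.zero_le _) (by omega) (by omega) (by omega) (by omega) (by omega)
    (fun i hi => by have := Finset.mem_Ico.1 hi; exact hlow i (by omega) (by omega))
    (fun i hi => by have := Finset.mem_Ico.1 hi; exact hhigh i (by omega) (by omega))
  have b3 := hone s2 H (K - 1) (K + 1) hs2H le_rfl (by omega) (by omega) (by omega) (by omega)
    (fun i hi => by have := Finset.mem_Ico.1 hi; exact hlow2 i (by omega) (by omega))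
    (fun i hi => by have := Finset.mem_Ico.1 hi; exact hhigh2 i (by omega) (by omega))
  have b2 : ((s2 : ℝ) - s1) * ((1 - δ) * T / Real.log n ^ 2) - 2 * V ^ 2 ≤
        ∑ i ∈ Finset.Ico s1 s2, rhoG P (n / 2 - 1 - i) * rhoG P (n - n / 2 + 1 + i) ∧
      ∑ i ∈ Finset.Ico s1 s2, rhoG P (n / 2 - 1 - i) * rhoG P (n - n / 2 + 1 + i) ≤
        ((s2 : ℝ) - s1) * ((1 + δ) * T / Real.log ((n : ℝ) / 4) ^ 2) + 2 * V ^ 2 := by
    rcases Nat.lt_or_ge t1 t2 with h | h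
    · exact hone s1 s2 (K - 1) K hs12 hs2H (by omega) (by omega) (by omega) (by omega)
        (fun i hi => by have := Finset.mem_Ico.1 hi; exact hlow2 i (by omega) (by omega))
        (fun i hi => by have := Finset.mem_Ico.1 hi; exact hhigh i (by omega) (by omega))
    · exact hone s1 s2 K (K + 1) hs12 hs2H (by omega) (by omega) (by omega) (by omega)
        (fun i hi => by have := Finset.mem_Ico.1 hi; exact hlow i (by omega) (by omega))
        (fun i hi => by have := Finset.mem_Ico.1 hi; exact hhigh2 i (by omega) (by omega))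
  have hsum : ES (rhoG P) n H = ∑ i ∈ Finset.Ico 0 s1, rhoG P (n / 2 - 1 - i) * rhoG P (n - n / 2 + 1 + i) +
      ∑ i ∈ Finset.Ico s1 s2, rhoG P (n / 2 - 1 - i) * rhoG P (n - n / 2 + 1 + i) +
      ∑ i ∈ Finset.Ico s2 H, rhoG P (n / 2 - 1 - i) * rhoG P (n - n / 2 + 1 + i) := by
    rw [Finset.sum_Ico_consecutive _ (Nat.zero_le _) hs12, Finset.sum_Ico_consecutive _ (Nat.zero_le _) hs2H]
    unfold ES
    rw [Finset.range_eq_Ico]
  rw [hsum]
  push_cast at b1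
  constructor
  · nlinarith [b1.1, b2.1, b3.1]
  · nlinarith [b1.2, b2.2, b3.2]

end Pool.Agent.N732.GX
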