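import Mathlib
import Pool.Agent.N732.GX.SymE

set_option autoImplicit false
set_option linter.unusedSectionVars false

/-! # Symmetric pairs in models with a growing sieve: the asymptotic formula -/

open MeasureTheory Filter Set
open scoped ENNReal Topology

namespace Pool.Agent.N732.GX

open Pool.Agent.R528.RM Pool.Agent.N732.GS

lemma y_large {y : ℕ → ℕ} (hy : Tendsto (fun j : ℕ => (y j : ℝ) * Real.log (y j) / j) atTop atTop) :
    Tendsto (fun j : ℕ => (y j : ℝ)) atTop atTop := by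
  have h1 : Tendsto (fun j : ℕ => √(j : ℝ)) atTop atTop := Real.tendsto_sqrt_atTop.comp tendsto_natCast_atTop_atTop
  refine tendsto_atTop_mono' atTop ?_ h1
  filter_upwards [hy.eventually_ge_atTop 1, eventually_ge_atTop 1] with j hj hj1
  have hj0 : (0 : ℝ) < j := by exact_mod_cast hj1
  rw [le_div_iff₀ hj0, one_mul] at hj
  have hy0 : (0 : ℝ) ≤ y j := Nat.cast_nonneg _
  have h2 : Real.log (y j) ≤ y j := by
    have := Real.log_le_sub_one_of_pos (x := (y j : ℝ))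
    rcases hy0.eq_or_lt with h | h
    · rw [← h]; simp
    · have := this h
      linarith
  have h3 : (y j : ℝ) * Real.log (y j) ≤ (y j : ℝ) * y j := mul_le_mul_of_nonneg_left h2 hy0
  rw [Real.sqrt_le_left hy0, sq]
  linarith

lemma close_aux {n K j j' J : ℕ} {δ : ℝ} (hδ0 : 0 < δ) (hδ1 : δ ≤ 1 / 2) (P : ℕ → Finset ℕ) (hP : ∀ j, ∀ p ∈ P j, p.Prime)
    (y : ℕ → ℕ) (hJ : ∀ j, J ≤ j → 16 / δ ≤ (y j : ℝ) ∧ 8 ≤ (y j : ℝ) ∧
      32 / δ * j ≤ (y j : ℝ) * Real.log (y j) ∧ ∀ p : ℕ, p.Prime → p ≤ y j → p ∈ P j) (hn : 0 < n)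
    (hlogn2 : Real.log n ≤ (K : ℝ) + 2) (hKJ : J + 15 ≤ K) (k1 : K - 1 ≤ j) (k3 : K - 1 ≤ j') :
    (1 - δ) * sing {0, n} ≤ singH (P j ∩ P j') {0, n} ∧ singH (P j ∩ P j') {0, n} ≤ (1 + δ) * sing {0, n} := by
  obtain ⟨a2, a3, a4, a5⟩ := hJ j (by omega)
  obtain ⟨b2, b3, b4, b5⟩ := hJ j' (by omega)
  have hmin : ∀ (i : ℕ), K - 1 ≤ i → 32 / δ * (i : ℝ) ≤ (y i : ℝ) * Real.log (y i) → 4 * Real.log n ≤ δ / 2 * ((y i : ℝ) * Real.log (y i)) := by
    intro i hi h5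
    have h6 : (K : ℝ) ≤ i + 1 := by
      have : K ≤ i + 1 := by omega
      exact_mod_cast this
    have h7 : (14 : ℝ) ≤ i := by
      have : 14 ≤ i := by omega
      exact_mod_cast this
    have h8 : δ / 2 * (32 / δ * (i : ℝ)) ≤ δ / 2 * ((y i : ℝ) * Real.log (y i)) := mul_le_mul_of_nonneg_left h5 (by positivity)
    have h9 : δ / 2 * (32 / δ * (i : ℝ)) = 16 * i := by
      have h10 : δ ≠ 0 := hδ0.ne'
      calc δ / 2 * (32 / δ * (i : ℝ)) = (δ / δ) * (16 * i) := by ring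
        _ = 16 * i := by rw [div_self h10, one_mul]
    rw [h9] at h8
    linarith
  rcases le_total (y j) (y j') with h | h
  · refine pair_close (n := n) (y := y j) hn (by exact_mod_cast a3) hδ0 hδ1 ?_ (hmin j k1 a4) (P j ∩ P j') (fun p hp => hP j p (Finset.mem_inter.1 hp).1)
        (fun p hp hpy => Finset.mem_inter.2 ⟨a5 p hp hpy, b5 p hp (hpy.trans h)⟩)
    rw [div_le_iff₀ (by linarith)]
    rw [div_le_iff₀ hδ0] at a2
    linarith
  · refine pair_close (n := n) (y := y j') hn (by exact_mod_cast b3) hδ0 hδ1 ?_ (hmin j' k3 b4) (P j ∩ P j') (fun p hp => hP j p (Finset.mem_inter.1 hp).1)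
        (fun p hp hpy => Finset.mem_inter.2 ⟨a5 p hp (hpy.trans h), b5 p hp hpy⟩)
    rw [div_le_iff₀ (by linarith)]
    rw [div_le_iff₀ hδ0] at b2
    linarith

theorem ES_asymp (P : ℕ → Finset ℕ) (hP : ∀ j, ∀ p ∈ P j, p.Prime)
    (hW : Tendsto (fun j : ℕ => Real.log (∏ p ∈ P j, p : ℕ) / j) atTop (𝓝 0))
    (y : ℕ → ℕ) (hy : Tendsto (fun j : ℕ => (y j : ℝ) * Real.log (y j) / j) atTop atTop)
    (hPy : ∀ᶠ j : ℕ in atTop, ∀ p : ℕ, p.Prime → p ≤ y j → p ∈ P j) {ε θ : ℝ} (hε : 0 < ε) (hθ : 0 < θ) :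
    ∀ᶠ n : ℕ in atTop, Even n → ∀ H : ℕ, (n : ℝ) ^ θ ≤ H → 8 * H ≤ n →
      |ES (rhoG P) n H - sing {0, n} * (H / Real.log n ^ 2)| ≤ ε * (sing {0, n} * (H / Real.log n ^ 2)) := by
  classical
  obtain ⟨c, hc0, hc⟩ := sing_lower 2
  have hl2 : 0 < Real.log 2 := Real.log_pos (by norm_num)
  obtain ⟨δ, hδ0, hδ1, hδε⟩ : ∃ δ : ℝ, 0 < δ ∧ δ ≤ 1 / 2 ∧ δ ≤ ε / 4 :=
    ⟨min (1 / 2) (ε / 4), lt_min (by norm_num) (by positivity), min_le_left _ _, min_le_right _ _⟩
  obtain ⟨κ, hκ0, hκ1, hκθ⟩ : ∃ κ : ℝ, 0 < κ ∧ κ ≤ 1 / 4 ∧ κ ≤ θ / 4 :=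
    ⟨min (θ / 4) (1 / 4), lt_min (by positivity) (by norm_num), min_le_right _ _, min_le_left _ _⟩
  -- facts about the blocks
  have hblock : ∀ᶠ j : ℕ in atTop, Real.log (∏ p ∈ P j, p : ℕ) ≤ κ * Real.log 2 * j ∧ 16 / δ ≤ (y j : ℝ) ∧ 8 ≤ (y j : ℝ) ∧
      32 / δ * j ≤ (y j : ℝ) * Real.log (y j) ∧ ∀ p : ℕ, p.Prime → p ≤ y j → p ∈ P j := by
    filter_upwards [hW.eventually (gt_mem_nhds (show (0 : ℝ) < κ * Real.log 2 by positivity)), (y_large hy).eventually_ge_atTop (16 / δ),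
      (y_large hy).eventually_ge_atTop 8, hy.eventually_ge_atTop (32 / δ), hPy, eventually_ge_atTop 1] with j h1 h2 h3 h4 h5 h6
    have hj0 : (0 : ℝ) < j := by exact_mod_cast h6
    rw [div_lt_iff₀ hj0] at h1
    rw [le_div_iff₀ hj0] at h4
    exact ⟨h1.le, h2, h3, h4, h5⟩
  obtain ⟨J, hJ⟩ := eventually_atTop.1 hblock
  -- the logarithms
  have hratio : Tendsto (fun n : ℕ => (Real.log n / Real.log ((n : ℝ) / 4)) ^ 2) atTop (𝓝 1) := by
    have h1 : Tendsto (fun n : ℕ => Real.log ((n : ℝ) / 4)) atTop atTop :=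
      Real.tendsto_log_atTop.comp (tendsto_natCast_atTop_atTop.atTop_div_const (by norm_num))
    have h2 : Tendsto (fun n : ℕ => 1 + Real.log 4 / Real.log ((n : ℝ) / 4)) atTop (𝓝 (1 + 0)) :=
      tendsto_const_nhds.add (tendsto_const_nhds.div_atTop h1)
    have h3 := h2.pow 2
    rw [add_zero, one_pow] at h3
    refine h3.congr' ?_
    filter_upwards [h1.eventually_gt_atTop 0, eventually_ge_atTop 1] with n hn hn1
    have hn0 : (n : ℝ) ≠ 0 := by
      have : (0 : ℝ) < n := by exact_mod_cast hn1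
      exact this.ne'
    congr 1
    rw [Real.log_div hn0 (by norm_num)] at hn ⊢
    field_simp
    ring
  have hsmall : ∀ᶠ n : ℕ in atTop, 6 * Real.log (n : ℝ) ^ 2 ≤ (ε / 2 * c) * (n : ℝ) ^ (θ / 2) := by
    have h1 := (isLittleO_log_rpow_rpow_atTop (2 : ℝ) (show (0 : ℝ) < θ / 2 by positivity)).def (show 0 < ε / 12 * c by positivity)
    filter_upwards [tendsto_natCast_atTop_atTop.eventually h1, eventually_ge_atTop 1] with n hn hn1
    have hn1' : (1 : ℝ) ≤ n := by exact_mod_cast hn1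
    rw [Real.norm_of_nonneg (Real.rpow_nonneg (Real.log_nonneg hn1') _), Real.norm_of_nonneg (Real.rpow_nonneg (by linarith) _)] at hn
    have h5 : Real.log (n : ℝ) ^ (2 : ℝ) = Real.log n ^ 2 := by
      rw [← Real.rpow_natCast]
      norm_num
    rw [h5] at hn
    linarith
  filter_upwards [hratio.eventually (gt_mem_nhds (show (1 : ℝ) < 1 + ε / 16 by linarith)), hratio.eventually (gt_mem_nhds (show (1 : ℝ) < 2 by norm_num)),
    hsmall, tendsto_log.eventually_ge_atTop 16, eventually_ge_atTop (2 ^ (J + 16))] with n h1 h1' h2 h3 h4 hev H hH1 hH2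
  have hn16 : 16 ≤ n := by
    have hJ0 : 2 ^ 4 ≤ 2 ^ (J + 16) := Nat.pow_le_pow_right (by norm_num) (by omega)
    have h5 : 2 ^ 4 ≤ n := hJ0.trans h4
    norm_num at h5
    exact h5
  have hnR : (16 : ℝ) ≤ n := by exact_mod_cast hn16
  set K := Nat.log 2 (n / 2) with hK
  have hK1 : 2 ^ K ≤ n / 2 := Nat.pow_log_le_self 2 (by omega)
  have hK2 : n / 2 < 2 ^ (K + 1) := Nat.lt_pow_succ_log_self (by norm_num) _
  have hKJ : J + 15 ≤ K := by
    refine Nat.le_log_of_pow_le (by norm_num) ?_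
    have h5 : 2 ^ (J + 16) = 2 ^ (J + 15) * 2 := pow_succ _ _
    rw [h5] at h4
    rw [Nat.le_div_iff_mul_le (by norm_num)]
    exact h4
  clear h4
  have hlogn : ((K : ℝ) + 1) * Real.log 2 ≤ Real.log n := by
    have h5 : 2 ^ (K + 1) ≤ n := by rw [pow_succ]; omega
    have h6 : (2 : ℝ) ^ (K + 1) ≤ n := by exact_mod_cast h5
    have h7 := Real.log_le_log (by positivity) h6
    rw [Real.log_pow] at h7
    push_cast at h7
    exact h7
  have hlogn2 : Real.log n ≤ (K : ℝ) + 2 := by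
    have h5 : n ≤ 2 ^ (K + 2) := by
      have : 2 ^ (K + 2) = 2 * 2 ^ (K + 1) := by ring
      omega
    have h6 : (n : ℝ) ≤ (2 : ℝ) ^ (K + 2) := by exact_mod_cast h5
    have h7 := Real.log_le_log (by linarith) h6
    rw [Real.log_pow] at h7
    push_cast at h7
    have h8 := Real.log_two_lt_d9
    have h9 : (0 : ℝ) ≤ (K : ℝ) + 2 := by positivity
    have h10 : ((K : ℝ) + 2) * Real.log 2 ≤ ((K : ℝ) + 2) * 1 := mul_le_mul_of_nonneg_left (by linarith) h9
    linarith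
  set T := sing {0, n} with hT
  have hTpos : 0 < T := sing_pair_pos hev
  have hcT : c ≤ T := hc {0, n} (pair_card (by omega)) hTpos.ne'
  have hln : 0 < Real.log (n : ℝ) := by linarith
  have hl4 : 0 < Real.log ((n : ℝ) / 4) := Real.log_pos (by linarith)
  set V := Real.exp (κ * Real.log n) with hV
  have hV2 : V ^ 2 ≤ (n : ℝ) ^ (θ / 2) := by
    rw [hV, ← Real.exp_nat_mul, Real.rpow_def_of_pos (by linarith)]
    apply Real.exp_le_exp.2
    push_cast
    nlinarith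
  have hjn : ∀ j, j ≤ K + 1 → (j : ℝ) * Real.log 2 ≤ Real.log n := by
    intro j hj
    have : (j : ℝ) ≤ K + 1 := by exact_mod_cast hj
    exact (mul_le_mul_of_nonneg_right this hl2.le).trans hlogn
  have hWj : ∀ j, K - 1 ≤ j → j ≤ K + 1 → Real.log (∏ p ∈ P j, p : ℕ) ≤ κ * Real.log n := by
    intro j k1 k2
    have h5 := (hJ j (by omega)).1
    have h6 := mul_le_mul_of_nonneg_left (hjn j k2) hκ0.le
    linarith
  obtain ⟨t1, t2⟩ := total P hP hn16 hH2 (V := V) (T := T) (δ := δ) (Real.exp_pos _).le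
    (fun j k1 k2 => by
      have h5 : 0 < ((∏ p ∈ P j, p : ℕ) : ℝ) := by
        exact_mod_cast Finset.prod_pos fun p hp => (hP j p hp).pos
      rw [hV, ← Real.log_le_iff_le_exp h5]
      exact hWj j k1 k2)
    (fun j k1 k2 => by
      refine (ratio_le_log (P j) (hP j)).trans ?_
      have h5 := hWj j k1 k2
      have h6 : κ * Real.log n ≤ 1 / 4 * Real.log n := mul_le_mul_of_nonneg_right hκ1 hln.le
      have h7 : Real.log (∏ p ∈ P j, p : ℕ) / Real.log 2 ≤ 1 / 2 * Real.log n := by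
        rw [div_le_iff₀ hl2]
        have := Real.log_two_gt_d9
        nlinarith
      linarith)
    (fun j j' k1 _ k3 _ => close_aux hδ0 hδ1 P hP y (fun j hj => (hJ j hj).2) (by omega) hlogn2 hKJ k1 k3)
  -- conclusion
  set X := T * ((H : ℝ) / Real.log n ^ 2) with hX
  have hH0 : (0 : ℝ) ≤ H := Nat.cast_nonneg H
  have hX0 : 0 ≤ X := by positivity
  have hnθ : (n : ℝ) ^ θ = (n : ℝ) ^ (θ / 2) * (n : ℝ) ^ (θ / 2) := by
    rw [← Real.rpow_add (by linarith)]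
    congr 1
    ring
  have hVX : 6 * V ^ 2 ≤ ε / 2 * X := by
    have h5 : 0 ≤ (n : ℝ) ^ (θ / 2) := Real.rpow_nonneg (by linarith) _
    have h6 : 6 * V ^ 2 * Real.log n ^ 2 ≤ ε / 2 * (T * H) := by
      calc 6 * V ^ 2 * Real.log n ^ 2 = V ^ 2 * (6 * Real.log n ^ 2) := by ring
        _ ≤ (n : ℝ) ^ (θ / 2) * ((ε / 2 * c) * (n : ℝ) ^ (θ / 2)) := mul_le_mul hV2 h2 (by positivity) h5
        _ = ε / 2 * (c * (n : ℝ) ^ θ) := by rw [hnθ]; ring
        _ ≤ ε / 2 * (T * H) := by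
            apply mul_le_mul_of_nonneg_left _ (by positivity)
            exact mul_le_mul hcT hH1 (Real.rpow_nonneg (by linarith) _) hTpos.le
    have h7 : ε / 2 * X = ε / 2 * (T * H) / Real.log n ^ 2 := by rw [hX]; ring
    rw [h7, le_div_iff₀ (by positivity)]
    exact h6
  rw [abs_le]
  constructor
  · have h5 : (H : ℝ) * ((1 - δ) * T / Real.log n ^ 2) = (1 - δ) * X := by rw [hX]; ring
    rw [h5] at t1
    nlinarith
  · have h5 : (H : ℝ) * ((1 + δ) * T / Real.log ((n : ℝ) / 4) ^ 2) = (1 + δ) * X * (Real.log n / Real.log ((n : ℝ) / 4)) ^ 2 := by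
      rw [hX, div_pow]
      field_simp
    rw [h5] at t2
    set r := (Real.log n / Real.log ((n : ℝ) / 4)) ^ 2 with hr
    have hr0 : 0 ≤ r := by positivity
    have h6 : (1 + δ) * X * r ≤ X + δ * X * 2 + ε / 16 * X := by
      have h7 : X * r ≤ X * (1 + ε / 16) := mul_le_mul_of_nonneg_left h1.le hX0
      have h8 : δ * X * r ≤ δ * X * 2 := mul_le_mul_of_nonneg_left h1'.le (by positivity)
      nlinarith
    nlinarith [mul_le_mul_of_nonneg_right hδε hX0]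

variable {Ω : Type} {m0 : MeasurableSpace Ω} {μ : Measure Ω} [IsProbabilityMeasure μ]
  {ℱ : Filtration ℕ m0} {A : ℕ → Set Ω}

/-- **symmetric pairs** -/
theorem sym_pairs (hA : ∀ n, MeasurableSet[ℱ n] (A n)) (P : ℕ → Finset ℕ) (hP : ∀ j, ∀ p ∈ P j, p.Prime)
    (hW : Tendsto (fun j : ℕ => Real.log (∏ p ∈ P j, p : ℕ) / j) atTop (𝓝 0))
    (y : ℕ → ℕ) (hy : Tendsto (fun j : ℕ => (y j : ℝ) * Real.log (y j) / j) atTop atTop)
    (hPy : ∀ᶠ j : ℕ in atTop, ∀ p : ℕ, p.Prime → p ≤ y j → p ∈ P j)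
    (hd : ∀ᵐ ω ∂μ, ∀ ε : ℝ, 0 < ε → ∀ᶠ n : ℕ in atTop, |dens μ ℱ A n ω - rhoG P (n + 1)| ≤ ε * rhoG P (n + 1)) :
    ∀ᵐ ω ∂μ, ∀ θ ε : ℝ, 0 < θ → 0 < ε → ∀ᶠ n : ℕ in atTop, Even n → ∀ H : ℕ, (n : ℝ) ^ θ ≤ H → 8 * H ≤ n →
      |RS A n H ω - sing {0, n} * (H / Real.log n ^ 2)| ≤ ε * (sing {0, n} * (H / Real.log n ^ 2)) := by
  filter_upwards [sym_law (μ := μ) hA (rhoG P) (rhoG_01 P) hd] with ω hω θ ε hθ hε
  obtain ⟨c, hc0, hc⟩ := sing_lower 2
  set η : ℝ := min 1 (ε / 8) with hη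
  have hη0 : 0 < η := lt_min one_pos (by positivity)
  have hη1 : η ≤ 1 := min_le_left _ _
  have hηε : η ≤ ε / 8 := min_le_right _ _
  have hsmall : ∀ᶠ n : ℕ in atTop, 9 * Real.log (n : ℝ) ^ 3 ≤ (ε / 4 * c) * (n : ℝ) ^ (θ / 2) := by
    have h1 := (isLittleO_log_rpow_rpow_atTop (3 : ℝ) (show (0 : ℝ) < θ / 2 by positivity)).def (show 0 < ε / 36 * c by positivity)
    filter_upwards [tendsto_natCast_atTop_atTop.eventually h1, eventually_ge_atTop 1] with n hn hn1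
    have hn1' : (1 : ℝ) ≤ n := by exact_mod_cast hn1
    rw [Real.norm_of_nonneg (Real.rpow_nonneg (Real.log_nonneg hn1') _), Real.norm_of_nonneg (Real.rpow_nonneg (by linarith) _)] at hn
    have h5 : Real.log (n : ℝ) ^ (3 : ℝ) = Real.log n ^ 3 := by
      rw [← Real.rpow_natCast]
      norm_num
    rw [h5] at hn
    linarith
  filter_upwards [hω η hη0, ES_asymp P hP hW y hy hPy hη0 hθ, hsmall, tendsto_log.eventually_ge_atTop 1, eventually_ge_atTop 16] with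
    n h1 h2 h3 h4 h5 hev H hH1 hH2
  have hnR : (16 : ℝ) ≤ n := by exact_mod_cast h5
  have g1 := h1 H hH2
  have g2 := h2 hev H hH1 hH2
  set T := sing {0, n} with hT
  have hTpos : 0 < T := sing_pair_pos hev
  have hcT : c ≤ T := hc {0, n} (pair_card (by omega)) hTpos.ne'
  have hH0 : (0 : ℝ) ≤ H := Nat.cast_nonneg H
  set X := T * ((H : ℝ) / Real.log n ^ 2) with hX
  have hX0 : 0 ≤ X := by positivity
  have hln : 0 < Real.log (n : ℝ) := by linarith
  have hsq : (n : ℝ) ^ (θ / 2) ≤ √(H : ℝ) := by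
    apply Real.le_sqrt_of_sq_le
    rw [← Real.rpow_natCast, ← Real.rpow_mul (by linarith)]
    push_cast
    rw [div_mul_cancel₀ _ (by norm_num)]
    exact hH1
  have hs0 : 0 ≤ √(H : ℝ) := Real.sqrt_nonneg _
  have hss : √(H : ℝ) * √(H : ℝ) = H := Real.mul_self_sqrt hH0
  have hsl : √(Real.log (n : ℝ)) ≤ Real.log n := by
    rw [Real.sqrt_le_left hln.le]
    nlinarith
  have hmain : 9 * √(H * Real.log n) ≤ ε / 4 * X := by
    have h6 : 9 * √(H * Real.log n) * Real.log n ^ 2 ≤ ε / 4 * (T * H) := by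
      rw [Real.sqrt_mul hH0]
      calc 9 * (√(H : ℝ) * √(Real.log (n : ℝ))) * Real.log n ^ 2 ≤ 9 * (√(H : ℝ) * Real.log n) * Real.log n ^ 2 := by
            apply mul_le_mul_of_nonneg_right _ (by positivity)
            apply mul_le_mul_of_nonneg_left _ (by norm_num)
            exact mul_le_mul_of_nonneg_left hsl hs0
        _ = √(H : ℝ) * (9 * Real.log n ^ 3) := by ring
        _ ≤ √(H : ℝ) * ((ε / 4 * c) * √(H : ℝ)) := by
            apply mul_le_mul_of_nonneg_left _ hs0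
            exact h3.trans (mul_le_mul_of_nonneg_left hsq (by positivity))
        _ = ε / 4 * (c * (√(H : ℝ) * √(H : ℝ))) := by ring
        _ = ε / 4 * (c * H) := by rw [hss]
        _ ≤ ε / 4 * (T * H) := by
            apply mul_le_mul_of_nonneg_left _ (by positivity)
            exact mul_le_mul_of_nonneg_right hcT hH0
    have h7 : ε / 4 * X = ε / 4 * (T * H) / Real.log n ^ 2 := by rw [hX]; ring
    rw [h7, le_div_iff₀ (by positivity)]
    exact h6
  have b2 := abs_le.1 g2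
  have b1 := abs_le.1 g1
  have b3 : η * ES (rhoG P) n H ≤ 2 * η * X := by
    have h6 : ES (rhoG P) n H ≤ 2 * X := by
      have : η * X ≤ 1 * X := mul_le_mul_of_nonneg_right hη1 hX0
      linarith [b2.2]
    have := mul_le_mul_of_nonneg_left h6 hη0.le
    linarith
  have b4 : η * X ≤ ε / 8 * X := mul_le_mul_of_nonneg_right hηε hX0
  rw [abs_le]
  constructor
  · linarith [b1.1, b2.1]
  · linarith [b1.2, b2.2]

end Pool.Agent.N732.GX
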